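import Mathlib

set_option autoImplicit false

namespace Pool.Agent.Results.MP_49ab16_co.AverageGeodesic

/-- The neighbour of `v` in direction `i`. -/
def flip {n : ℕ} (v : Fin n → Bool) (i : Fin n) : Fin n → Bool := Function.update v i (!(v i))

/-- The `k`-th vertex of the antipodal geodesic that starts at `v` and uses the directions
`σ 0, σ 1, ...` in this order. -/
def pos {n : ℕ} (v : Fin n → Bool) (σ : Equiv.Perm (Fin n)) (k : ℕ) : Fin n → Bool :=
  fun i => if (σ.symm i : ℕ) < k then !(v i) else v i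

open Classical in
/-- The number of colour changes of the geodesic. `col w i` is the colour of the edge in
direction `i` at the vertex `w`. -/
noncomputable def changes {n r : ℕ} (col : (Fin n → Bool) → Fin n → Fin r)
    (v : Fin n → Bool) (σ : Equiv.Perm (Fin n)) : ℕ :=
  (Finset.univ.filter (fun k : Fin n => ∃ h : (k : ℕ) + 1 < n,
    col (pos v σ k) (σ k) ≠ col (pos v σ (k + 1)) (σ ⟨k + 1, h⟩))).card

theorem pos_inv {n : ℕ} (σ : Equiv.Perm (Fin n)) (k : ℕ) :
    Function.Involutive (fun v : Fin n → Bool => pos v σ k) := by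
  intro v
  funext i
  unfold pos
  by_cases h : (σ.symm i : ℕ) < k <;> simp [h]

theorem pos_succ {n : ℕ} (v : Fin n → Bool) (σ : Equiv.Perm (Fin n)) (k : Fin n) :
    pos v σ ((k : ℕ) + 1) = flip (pos v σ k) (σ k) := by
  funext i
  by_cases h : i = σ k
  · subst h
    simp [flip, pos]
  · have h2 : σ.symm i ≠ k := by
      intro h3; apply h; rw [← h3, Equiv.apply_symm_apply]
    have h3 : (σ.symm i : ℕ) ≠ (k : ℕ) := fun h4 => h2 (Fin.ext h4)
    have h5 : ((σ.symm i : ℕ) < (k : ℕ) + 1) ↔ ((σ.symm i : ℕ) < (k : ℕ)) := by omega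
    simp only [flip, Function.update_of_ne h, pos, h5]

theorem two_trans {n : ℕ} {a b a' b' : Fin n} (h : a ≠ b) (h' : a' ≠ b') :
    ∃ π : Equiv.Perm (Fin n), π a' = a ∧ π b' = b := by
  have h1 : Equiv.swap a' a b' ≠ a := by
    intro h3
    have : b' = Equiv.swap a' a (Equiv.swap a' a b') := by simp
    rw [h3, Equiv.swap_apply_right] at this
    exact h' this.symm
  refine ⟨Equiv.swap (Equiv.swap a' a b') b * Equiv.swap a' a, ?_, ?_⟩
  · rw [Equiv.Perm.mul_apply, Equiv.swap_apply_left, Equiv.swap_apply_of_ne_of_ne h1.symm h]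
  · rw [Equiv.Perm.mul_apply, Equiv.swap_apply_left]

theorem exchange {n : ℕ} (F : Fin n → Fin n → ℕ) {a b a' b' : Fin n} (h : a ≠ b)
    (h' : a' ≠ b') : ∑ σ : Equiv.Perm (Fin n), F (σ a) (σ b) = ∑ σ : Equiv.Perm (Fin n), F (σ a') (σ b') := by
  obtain ⟨π, h1, h2⟩ := two_trans h h'
  have e := Equiv.sum_comp (Equiv.mulRight π) (fun σ : Equiv.Perm (Fin n) => F (σ a') (σ b'))
  rw [← e]
  apply Finset.sum_congr rfl
  intro σ _
  simp [Equiv.Perm.mul_apply, h1, h2]

theorem perm_sum {n : ℕ} (F : Fin n → Fin n → ℕ) {a b : Fin n} (h : a ≠ b) :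
    (n * n - n) * ∑ σ : Equiv.Perm (Fin n), F (σ a) (σ b) =
      n.factorial * ∑ p ∈ (Finset.univ : Finset (Fin n)).offDiag, F p.1 p.2 := by
  have h1 : ∑ p ∈ (Finset.univ : Finset (Fin n)).offDiag,
      ∑ σ : Equiv.Perm (Fin n), F (σ p.1) (σ p.2) =
      (n * n - n) * ∑ σ : Equiv.Perm (Fin n), F (σ a) (σ b) := by
    rw [Finset.sum_congr rfl (fun p hp => exchange F (Finset.mem_offDiag.1 hp).2.2 h),
      Finset.sum_const, Finset.offDiag_card, Finset.card_univ, Fintype.card_fin, smul_eq_mul]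
  have h2 : ∑ p ∈ (Finset.univ : Finset (Fin n)).offDiag,
      ∑ σ : Equiv.Perm (Fin n), F (σ p.1) (σ p.2) =
      n.factorial * ∑ p ∈ (Finset.univ : Finset (Fin n)).offDiag, F p.1 p.2 := by
    rw [Finset.sum_comm]
    have h3 : ∀ σ : Equiv.Perm (Fin n), ∑ p ∈ (Finset.univ : Finset (Fin n)).offDiag,
        F (σ p.1) (σ p.2) = ∑ p ∈ (Finset.univ : Finset (Fin n)).offDiag, F p.1 p.2 := by
      intro σ
      refine Finset.sum_bij (fun p _ => (σ p.1, σ p.2)) ?_ ?_ ?_ ?_
      · intro p hp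
        rw [Finset.mem_offDiag] at hp ⊢
        exact ⟨Finset.mem_univ _, Finset.mem_univ _, fun h4 => hp.2.2 (σ.injective h4)⟩
      · intro p _ q _ hpq
        have h5 := congrArg Prod.fst hpq
        have h6 := congrArg Prod.snd hpq
        exact Prod.ext (σ.injective h5) (σ.injective h6)
      · intro p hp
        rw [Finset.mem_offDiag] at hp
        refine ⟨(σ.symm p.1, σ.symm p.2), ?_, ?_⟩
        · rw [Finset.mem_offDiag]
          exact ⟨Finset.mem_univ _, Finset.mem_univ _, fun h4 => hp.2.2 (σ.symm.injective h4)⟩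
        · simp
      · intro p _; rfl
    rw [Finset.sum_congr rfl (fun σ _ => h3 σ), Finset.sum_const, Finset.card_univ,
      Fintype.card_perm, Fintype.card_fin, smul_eq_mul]
  rw [← h1, h2]

theorem mono_pairs {n r : ℕ} (f : Fin n → Fin r) :
    n * n ≤ r * (∑ p ∈ (Finset.univ : Finset (Fin n)).offDiag,
      (if f p.1 = f p.2 then 1 else 0) + n) := by
  have h1 : (∑ c : Fin r, (Finset.univ.filter (fun a => f a = c)).card) ^ 2 ≤
      (Finset.univ : Finset (Fin r)).card *
        ∑ c : Fin r, ((Finset.univ.filter (fun a => f a = c)).card) ^ 2 :=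
    sq_sum_le_card_mul_sum_sq
  have h2 : ∑ c : Fin r, (Finset.univ.filter (fun a => f a = c)).card = n := by
    have := Finset.card_eq_sum_card_fiberwise (f := f) (s := (Finset.univ : Finset (Fin n)))
      (t := Finset.univ) (fun _ _ => Finset.mem_coe.2 (Finset.mem_univ _))
    rw [Finset.card_univ, Fintype.card_fin] at this
    exact this.symm
  have h3 : ∑ c : Fin r, ((Finset.univ.filter (fun a => f a = c)).card) ^ 2 =
      ∑ a : Fin n, ∑ b : Fin n, (if f a = f b then 1 else 0) := by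
    have h4 : ∀ c : Fin r, ((Finset.univ.filter (fun a => f a = c)).card) ^ 2 =
        ∑ a : Fin n, ∑ b : Fin n, (if f a = c then (if f b = c then 1 else 0) else 0) := by
      intro c
      rw [sq, Finset.card_filter, Finset.sum_mul_sum]
      apply Finset.sum_congr rfl; intro a _
      apply Finset.sum_congr rfl; intro b _
      by_cases ha : f a = c <;> by_cases hb : f b = c <;> simp [ha, hb]
    rw [Finset.sum_congr rfl (fun c _ => h4 c), Finset.sum_comm]
    apply Finset.sum_congr rfl; intro a _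
    rw [Finset.sum_comm]
    apply Finset.sum_congr rfl; intro b _
    rw [Finset.sum_ite_eq]
    simp [eq_comm]
  have h5 : ∑ a : Fin n, ∑ b : Fin n, (if f a = f b then 1 else 0) =
      ∑ p ∈ (Finset.univ : Finset (Fin n)).offDiag, (if f p.1 = f p.2 then 1 else 0) + n := by
    rw [← Finset.sum_product', ← Finset.diag_union_offDiag,
      Finset.sum_union (Finset.disjoint_diag_offDiag _), add_comm]
    congr 1
    rw [Finset.sum_diag]
    simp
  rw [h2, Finset.card_univ, Fintype.card_fin, h3, h5] at h1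
  rw [← sq]
  exact h1

/-- The number of steps without a colour change. -/
def stays {m r : ℕ} (col : (Fin (m + 1) → Bool) → Fin (m + 1) → Fin r)
    (v : Fin (m + 1) → Bool) (σ : Equiv.Perm (Fin (m + 1))) : ℕ :=
  ∑ k : Fin m, if col (pos v σ (k : ℕ)) (σ k.castSucc) =
    col (pos v σ ((k : ℕ) + 1)) (σ k.succ) then 1 else 0

theorem changes_add_stays {m r : ℕ} (col : (Fin (m + 1) → Bool) → Fin (m + 1) → Fin r)
    (v : Fin (m + 1) → Bool) (σ : Equiv.Perm (Fin (m + 1))) :
    changes col v σ + stays col v σ ≤ m := by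
  classical
  have h1 : changes col v σ ≤ (Finset.univ.filter (fun k : Fin m =>
      ¬ (col (pos v σ (k : ℕ)) (σ k.castSucc) =
        col (pos v σ ((k : ℕ) + 1)) (σ k.succ)))).card := by
    unfold changes
    refine (Finset.card_le_card (t := (Finset.univ.filter (fun k : Fin m =>
      ¬ (col (pos v σ (k : ℕ)) (σ k.castSucc) =
        col (pos v σ ((k : ℕ) + 1)) (σ k.succ)))).map Fin.castSuccEmb) ?_).trans
        (le_of_eq (Finset.card_map _))
    intro k hk
    rw [Finset.mem_filter] at hk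
    obtain ⟨-, h, h2⟩ := hk
    rw [Finset.mem_map]
    refine ⟨⟨k, by omega⟩, ?_, ?_⟩
    · rw [Finset.mem_filter]
      exact ⟨Finset.mem_univ _, h2⟩
    · rfl
  have h2 : stays col v σ = (Finset.univ.filter (fun k : Fin m =>
      (col (pos v σ (k : ℕ)) (σ k.castSucc) =
        col (pos v σ ((k : ℕ) + 1)) (σ k.succ)))).card := by
    unfold stays
    rw [Finset.card_filter]
  have h3 := Finset.card_filter_add_card_filter_not (s := (Finset.univ : Finset (Fin m)))
    (fun k : Fin m => (col (pos v σ (k : ℕ)) (σ k.castSucc) =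
        col (pos v σ ((k : ℕ) + 1)) (σ k.succ)))
  rw [Finset.card_univ, Fintype.card_fin] at h3
  omega

theorem total {m r : ℕ} (col : (Fin (m + 1) → Bool) → Fin (m + 1) → Fin r)
    (hcol : ∀ v i, col (flip v i) i = col v i) :
    ∑ v : Fin (m + 1) → Bool, ∑ σ : Equiv.Perm (Fin (m + 1)), stays col v σ =
      ∑ k : Fin m, ∑ u : Fin (m + 1) → Bool, ∑ σ : Equiv.Perm (Fin (m + 1)),
        if col u (σ k.castSucc) = col u (σ k.succ) then 1 else 0 := by
  have h1 : ∀ (k : Fin m) (σ : Equiv.Perm (Fin (m + 1))),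
      ∑ v : Fin (m + 1) → Bool, (if col (pos v σ (k : ℕ)) (σ k.castSucc) =
        col (pos v σ ((k : ℕ) + 1)) (σ k.succ) then 1 else 0) =
      ∑ u : Fin (m + 1) → Bool, (if col u (σ k.castSucc) = col u (σ k.succ) then 1 else 0) := by
    intro k σ
    rw [← Equiv.sum_comp (Function.Involutive.toPerm
        (fun v : Fin (m + 1) → Bool => pos v σ ((k : ℕ) + 1)) (pos_inv σ ((k : ℕ) + 1)))
      (fun u => if col u (σ k.castSucc) = col u (σ k.succ) then 1 else 0)]
    apply Finset.sum_congr rfl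
    intro v _
    have e1 : (Function.Involutive.toPerm (fun v : Fin (m + 1) → Bool => pos v σ ((k : ℕ) + 1))
        (pos_inv σ ((k : ℕ) + 1))) v = pos v σ ((k : ℕ) + 1) := rfl
    have e2 : col (pos v σ ((k : ℕ) + 1)) (σ k.castSucc) =
        col (pos v σ (k : ℕ)) (σ k.castSucc) := by
      have e3 := pos_succ v σ k.castSucc
      have e4 : ((k.castSucc : Fin (m + 1)) : ℕ) = (k : ℕ) := rfl
      rw [e4] at e3
      rw [e3, hcol]
    rw [e1, e2]
  unfold stays
  calc ∑ v : Fin (m + 1) → Bool, ∑ σ : Equiv.Perm (Fin (m + 1)), ∑ k : Fin m,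
        (if col (pos v σ (k : ℕ)) (σ k.castSucc) =
          col (pos v σ ((k : ℕ) + 1)) (σ k.succ) then 1 else 0)
      = ∑ σ : Equiv.Perm (Fin (m + 1)), ∑ v : Fin (m + 1) → Bool, ∑ k : Fin m,
        (if col (pos v σ (k : ℕ)) (σ k.castSucc) =
          col (pos v σ ((k : ℕ) + 1)) (σ k.succ) then 1 else 0) := Finset.sum_comm
    _ = ∑ σ : Equiv.Perm (Fin (m + 1)), ∑ k : Fin m, ∑ u : Fin (m + 1) → Bool,
        (if col u (σ k.castSucc) = col u (σ k.succ) then 1 else 0) := by
        apply Finset.sum_congr rfl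
        intro σ _
        rw [Finset.sum_comm]
        exact Finset.sum_congr rfl (fun k _ => h1 k σ)
    _ = ∑ k : Fin m, ∑ σ : Equiv.Perm (Fin (m + 1)), ∑ u : Fin (m + 1) → Bool,
        (if col u (σ k.castSucc) = col u (σ k.succ) then 1 else 0) := Finset.sum_comm
    _ = _ := by
        apply Finset.sum_congr rfl
        intro k _
        exact Finset.sum_comm

theorem lower {m r : ℕ} (col : (Fin (m + 1) → Bool) → Fin (m + 1) → Fin r)
    (hcol : ∀ v i, col (flip v i) i = col v i) :
    m * ((m + 1).factorial * 2 ^ (m + 1) * ((m + 1) * (m + 1))) ≤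
      ((m + 1) * (m + 1) - (m + 1)) * (r * ∑ v : Fin (m + 1) → Bool,
        ∑ σ : Equiv.Perm (Fin (m + 1)), stays col v σ) +
      m * ((m + 1).factorial * 2 ^ (m + 1) * (r * (m + 1))) := by
  rw [total col hcol]
  set S : (Fin (m + 1) → Bool) → ℕ := fun u =>
    ∑ p ∈ (Finset.univ : Finset (Fin (m + 1))).offDiag, (if col u p.1 = col u p.2 then 1 else 0)
    with hS
  have h1 : ∀ (k : Fin m) (u : Fin (m + 1) → Bool),
      ((m + 1) * (m + 1) - (m + 1)) * ∑ σ : Equiv.Perm (Fin (m + 1)),
        (if col u (σ k.castSucc) = col u (σ k.succ) then 1 else 0) =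
      (m + 1).factorial * S u := by
    intro k u
    exact perm_sum (fun a b => if col u a = col u b then 1 else 0)
      (ne_of_lt (Fin.castSucc_lt_succ))
  have h2 : ((m + 1) * (m + 1) - (m + 1)) * (r * ∑ k : Fin m, ∑ u : Fin (m + 1) → Bool,
      ∑ σ : Equiv.Perm (Fin (m + 1)),
        (if col u (σ k.castSucc) = col u (σ k.succ) then 1 else 0)) =
      ∑ _k : Fin m, ∑ u : Fin (m + 1) → Bool, (m + 1).factorial * (r * S u) := by
    rw [← mul_assoc, mul_comm ((m + 1) * (m + 1) - (m + 1)) r, mul_assoc, Finset.mul_sum,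
      Finset.mul_sum]
    apply Finset.sum_congr rfl
    intro k _
    rw [Finset.mul_sum, Finset.mul_sum]
    apply Finset.sum_congr rfl
    intro u _
    rw [h1 k u]
    ring
  rw [h2]
  have hcard : Fintype.card (Fin (m + 1) → Bool) = 2 ^ (m + 1) := by simp
  have h3 : ∀ c : ℕ, ∑ _k : Fin m, ∑ _u : Fin (m + 1) → Bool, (m + 1).factorial * c =
      m * ((m + 1).factorial * 2 ^ (m + 1) * c) := by
    intro c
    rw [Finset.sum_const, Finset.sum_const, Finset.card_univ, Finset.card_univ, hcard,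
      Fintype.card_fin, smul_eq_mul, smul_eq_mul]
    ring
  rw [← h3, ← h3, ← Finset.sum_add_distrib]
  apply Finset.sum_le_sum
  intro k _
  rw [← Finset.sum_add_distrib]
  apply Finset.sum_le_sum
  intro u _
  rw [← mul_add, ← mul_add]
  exact Nat.mul_le_mul_left _ (mono_pairs (col u))

theorem exists_stays {m r : ℕ} (hr : 0 < r) (hrn : r ≤ m + 1)
    (col : (Fin (m + 1) → Bool) → Fin (m + 1) → Fin r)
    (hcol : ∀ v i, col (flip v i) i = col v i) :
    ∃ (v : Fin (m + 1) → Bool) (σ : Equiv.Perm (Fin (m + 1))),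
      m + 1 ≤ r * (stays col v σ + 1) := by
  rcases Nat.eq_zero_or_pos m with hm | hm
  · subst hm
    refine ⟨fun _ => true, 1, ?_⟩
    calc 0 + 1 ≤ r * 1 := by omega
      _ ≤ r * (stays col (fun _ => true) 1 + 1) := Nat.mul_le_mul_left _ (by omega)
  by_contra hcon
  push Not at hcon
  have hcard : Fintype.card (Fin (m + 1) → Bool) = 2 ^ (m + 1) := by simp
  have h1 : ∑ v : Fin (m + 1) → Bool, ∑ σ : Equiv.Perm (Fin (m + 1)),
      r * (stays col v σ + 1) < ∑ _v : Fin (m + 1) → Bool, ∑ _σ : Equiv.Perm (Fin (m + 1)),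
        (m + 1) := by
    apply Finset.sum_lt_sum_of_nonempty Finset.univ_nonempty
    intro v _
    apply Finset.sum_lt_sum_of_nonempty Finset.univ_nonempty
    intro σ _
    exact hcon v σ
  have h2 : ∑ _v : Fin (m + 1) → Bool, ∑ _σ : Equiv.Perm (Fin (m + 1)), (m + 1) =
      (m + 1).factorial * 2 ^ (m + 1) * (m + 1) := by
    rw [Finset.sum_const, Finset.sum_const, Finset.card_univ, Finset.card_univ, hcard,
      Fintype.card_perm, Fintype.card_fin, smul_eq_mul, smul_eq_mul]
    ring
  have h3 : ∑ v : Fin (m + 1) → Bool, ∑ σ : Equiv.Perm (Fin (m + 1)),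
      r * (stays col v σ + 1) =
      r * (∑ v : Fin (m + 1) → Bool, ∑ σ : Equiv.Perm (Fin (m + 1)), stays col v σ) +
        (m + 1).factorial * 2 ^ (m + 1) * r := by
    have h4 : ∀ v : Fin (m + 1) → Bool, ∑ σ : Equiv.Perm (Fin (m + 1)),
        r * (stays col v σ + 1) = r * (∑ σ : Equiv.Perm (Fin (m + 1)), stays col v σ) +
          (m + 1).factorial * r := by
      intro v
      rw [← Finset.mul_sum, Finset.sum_add_distrib, Finset.sum_const, Finset.card_univ,
        Fintype.card_perm, Fintype.card_fin, smul_eq_mul]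
      ring
    rw [Finset.sum_congr rfl (fun v _ => h4 v), Finset.sum_add_distrib, ← Finset.mul_sum,
      Finset.sum_const, Finset.card_univ, hcard, smul_eq_mul]
    ring
  rw [h2, h3] at h1
  have h5 := lower col hcol
  have h6 : (m + 1) * (m + 1) - (m + 1) = (m + 1) * m := by
    rw [Nat.sub_eq_iff_eq_add (by nlinarith)]
    ring
  rw [h6] at h5
  set T := ∑ v : Fin (m + 1) → Bool, ∑ σ : Equiv.Perm (Fin (m + 1)), stays col v σ
  set Q := (m + 1).factorial * 2 ^ (m + 1)
  have h7 : ((m + 1) * m) * (Q * (m + 1)) ≤ ((m + 1) * m) * (r * T + Q * r) := by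
    calc ((m + 1) * m) * (Q * (m + 1)) = m * (Q * ((m + 1) * (m + 1))) := by ring
      _ ≤ (m + 1) * m * (r * T) + m * (Q * (r * (m + 1))) := h5
      _ = ((m + 1) * m) * (r * T + Q * r) := by ring
  have h8 := Nat.le_of_mul_le_mul_left h7 (by positivity)
  omega

/-- For `1 ≤ r ≤ n` every `r`-colouring of the edges of the `n`-cube has an antipodal geodesic
with at most `n - ⌈n / r⌉` colour changes. -/
theorem result (n r : ℕ) (hr0 : 0 < r) (hrn : r ≤ n)
    (col : (Fin n → Bool) → Fin n → Fin r) (hcol : ∀ v i, col (flip v i) i = col v i) :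
    ∃ (v : Fin n → Bool) (σ : Equiv.Perm (Fin n)), changes col v σ + (n + r - 1) / r ≤ n := by
  obtain ⟨m, rfl⟩ : ∃ m, n = m + 1 := ⟨n - 1, by omega⟩
  obtain ⟨v, σ, h⟩ := exists_stays hr0 hrn col hcol
  refine ⟨v, σ, ?_⟩
  have h1 := changes_add_stays col v σ
  have h2 : (m + 1 + r - 1) / r ≤ stays col v σ + 1 := by
    have h4 : m + 1 + r - 1 < r * (stays col v σ + 1 + 1) := by
      rw [mul_add r (stays col v σ + 1) 1, mul_one]
      omega
    have h5 := (Nat.div_lt_iff_lt_mul hr0).2 (by rw [mul_comm]; exact h4 :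
      m + 1 + r - 1 < (stays col v σ + 1 + 1) * r)
    omega
  omega

end Pool.Agent.Results.MP_49ab16_co.AverageGeodesic
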